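import Pool.Agent.H320R2.LD.MGF

/-!
# Gaussian concentration around a closed set
-/

set_option autoImplicit false

namespace Pool.Agent.R755.Bal

open MeasureTheory ProbabilityTheory Set
open scoped ENNReal Pointwise
open Pool.Agent.H320R2.LD

abbrev EE (n : ℕ) := EuclideanSpace ℝ (Fin n)

theorem nrm_eq {n : ℕ} (x y : Fin n → ℝ) :
    nrm (x - y) = dist (WithLp.toLp 2 x : EE n) (WithLp.toLp 2 y) := by
  rw [EuclideanSpace.dist_eq]
  unfold nrm nsq
  congr 1
  apply Finset.sum_congr rfl
  intro i _
  simp [Real.dist_eq, sq_abs]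

theorem gam_map (n : ℕ) : (gam (Fin n)).map (WithLp.toLp 2) = stdGaussian (EE n) :=
  map_pi_eq_stdGaussian

theorem conc {n : ℕ} (A : Set (EE n)) (hA : IsClosed A) (p : ℝ) (hp : 0 < p)
    (hpA : p ≤ (stdGaussian (EE n) A).toReal) (r : ℝ) (hr : 0 ≤ r)
    (hr' : Real.exp (-(r ^ 2 / 4)) ≤ p / 100) :
    99 / 100 ≤ (stdGaussian (EE n) (Metric.cthickening r A)).toReal := by
  have hne : A.Nonempty := by
    by_contra h
    rw [Set.not_nonempty_iff_eq_empty] at h
    rw [h] at hpA
    simp at hpA
    linarith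
  have hms : Measurable (WithLp.toLp 2 : (Fin n → ℝ) → EE n) := by fun_prop
  set φ : (Fin n → ℝ) → ℝ := fun x => (r / 2) * Metric.infDist (WithLp.toLp 2 x : EE n) A with hφ
  have hmφ : Measurable φ := by
    have h1 : Continuous fun y : EE n => Metric.infDist y A := Metric.continuous_infDist_pt A
    have h2 : Measurable fun x : Fin n → ℝ => Metric.infDist (WithLp.toLp 2 x : EE n) A :=
      h1.measurable.comp hms
    exact h2.const_mul _
  have hlip : ∀ x y, φ y - φ x ≤ (r / 2) * nrm (x - y) := by
    intro x y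
    rw [nrm_eq, hφ]
    simp only
    rw [← mul_sub]
    apply mul_le_mul_of_nonneg_left _ (by positivity)
    have := Metric.infDist_le_infDist_add_dist (s := A) (x := (WithLp.toLp 2 y : EE n)) (y := WithLp.toLp 2 x)
    rw [dist_comm]
    linarith
  have key := MGF.main_fin n φ hmφ (r / 2) hlip
  set A' : Set (Fin n → ℝ) := WithLp.toLp 2 ⁻¹' A with hA'
  set C' : Set (Fin n → ℝ) := WithLp.toLp 2 ⁻¹' (Metric.cthickening r A)ᶜ with hC'
  have hmA' : MeasurableSet A' := hms hA.measurableSet
  have hmC' : MeasurableSet C' := hms Metric.isClosed_cthickening.measurableSet.compl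
  have e1 : gam (Fin n) A' ≤ ∫⁻ x, ENNReal.ofReal (Real.exp (-φ x)) ∂(gam (Fin n)) := by
    rw [← lintegral_indicator_one hmA']
    apply lintegral_mono
    intro x
    by_cases hx : x ∈ A'
    · have : φ x = 0 := by
        rw [hφ]
        simp only
        rw [Metric.infDist_zero_of_mem (s := A) hx, mul_zero]
      simp [hx, this]
    · simp [hx]
  have e2 : ENNReal.ofReal (Real.exp (r ^ 2 / 2)) * gam (Fin n) C' ≤
      ∫⁻ x, ENNReal.ofReal (Real.exp (φ x)) ∂(gam (Fin n)) := by
    rw [← lintegral_indicator_one hmC', ← lintegral_const_mul _ (measurable_one.indicator hmC')]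
    apply lintegral_mono
    intro x
    by_cases hx : x ∈ C'
    · simp only [Pi.one_apply, hx, indicator_of_mem, mul_one]
      apply ENNReal.ofReal_le_ofReal
      apply Real.exp_le_exp.mpr
      have h1 : r ≤ Metric.infDist (WithLp.toLp 2 x : EE n) A := by
        by_contra hlt
        push Not at hlt
        apply hx
        show Metric.infEDist (WithLp.toLp 2 x : EE n) A ≤ ENNReal.ofReal r
        have h3 : Metric.infEDist (WithLp.toLp 2 x : EE n) A ≠ ⊤ := Metric.infEDist_ne_top hne
        rw [← ENNReal.ofReal_toReal h3]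
        exact ENNReal.ofReal_le_ofReal hlt.le
      rw [hφ]
      simp only
      nlinarith
    · simp [hx]
  have e3 : gam (Fin n) A' = stdGaussian (EE n) A := by
    rw [← gam_map, Measure.map_apply hms hA.measurableSet]
  have e4 : gam (Fin n) C' = stdGaussian (EE n) (Metric.cthickening r A)ᶜ := by
    rw [← gam_map, Measure.map_apply hms Metric.isClosed_cthickening.measurableSet.compl]
  rw [e3] at e1
  rw [e4] at e2
  have e5 := (mul_le_mul' e1 e2).trans key
  have e6 := ENNReal.toReal_mono ENNReal.ofReal_ne_top e5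
  rw [ENNReal.toReal_mul, ENNReal.toReal_mul, ENNReal.toReal_ofReal (Real.exp_pos _).le,
    ENNReal.toReal_ofReal (Real.exp_pos _).le] at e6
  have e7 : (stdGaussian (EE n) (Metric.cthickening r A)ᶜ).toReal =
      1 - (stdGaussian (EE n) (Metric.cthickening r A)).toReal :=
    probReal_compl_eq_one_sub Metric.isClosed_cthickening.measurableSet
  rw [e7] at e6
  set m := (stdGaussian (EE n) (Metric.cthickening r A)).toReal with hm
  set a := (stdGaussian (EE n) A).toReal with ha
  have hm1 : m ≤ 1 := by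
    have := ENNReal.toReal_mono ENNReal.one_ne_top (prob_le_one (μ := stdGaussian (EE n)) (s := Metric.cthickening r A))
    simpa using this
  by_contra hcon
  push Not at hcon
  have h8 : 0 < 1 - m := by linarith
  have h9 : p * (Real.exp (r ^ 2 / 2) * (1 - m)) ≤ Real.exp ((r / 2) ^ 2) :=
    le_trans (mul_le_mul_of_nonneg_right hpA (by positivity)) e6
  have h10 : Real.exp (r ^ 2 / 2) * Real.exp (-(r ^ 2 / 4)) = Real.exp ((r / 2) ^ 2) := by
    rw [← Real.exp_add]; congr 1; ring
  rw [← h10] at h9
  have h11 : p * (1 - m) ≤ Real.exp (-(r ^ 2 / 4)) := by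
    have h12 : 0 < Real.exp (r ^ 2 / 2) := Real.exp_pos _
    have h13 : Real.exp (r ^ 2 / 2) * (p * (1 - m)) ≤ Real.exp (r ^ 2 / 2) * Real.exp (-(r ^ 2 / 4)) := by
      linarith
    exact le_of_mul_le_mul_left h13 h12
  nlinarith

end Pool.Agent.R755.Bal
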