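import Pool.Agent.H460BZ.Chord
import Pool.Agent.R755.Bal.Conc

/-!
# The Gaussian barycenter of a closed convex set is deep inside it
-/

set_option autoImplicit false

namespace Pool.Agent.R755.Bal

open MeasureTheory ProbabilityTheory Set
open scoped ENNReal Pointwise InnerProductSpace

theorem map_inner {n : ℕ} (S : EE n) :
    (stdGaussian (EE n)).map (fun x => ⟪S, x⟫_ℝ) = gaussianReal 0 (‖S‖ ^ 2).toNNReal := by
  have h := IsGaussian.map_eq_gaussianReal (μ := stdGaussian (EE n)) (innerSL ℝ S)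
  rw [integral_strongDual_stdGaussian, variance_dual_stdGaussian, innerSL_apply_norm] at h
  exact h

theorem pdf_le (x : ℝ) : gaussianPDFReal 0 1 x ≤ 1 / 2 := by
  rw [gaussianPDFReal]
  simp only [NNReal.coe_one, mul_one, sub_zero]
  have h1 : Real.exp (-x ^ 2 / 2) ≤ 1 := by
    rw [Real.exp_le_one_iff]
    nlinarith [sq_nonneg x]
  have h2 : (2 : ℝ) ≤ √(2 * Real.pi) := by
    apply Real.le_sqrt_of_sq_le
    nlinarith [Real.pi_gt_three]
  have h3 : (√(2 * Real.pi))⁻¹ ≤ 1 / 2 := by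
    rw [inv_eq_one_div]
    exact one_div_le_one_div_of_le (by norm_num) h2
  calc (√(2 * Real.pi))⁻¹ * Real.exp (-x ^ 2 / 2) ≤ 1 / 2 * 1 :=
        mul_le_mul h3 h1 (Real.exp_pos _).le (by norm_num)
    _ = 1 / 2 := by ring

theorem slab_le {n : ℕ} (S : EE n) (hS : ‖S‖ = 1) (s c : ℝ) (hc : 0 ≤ c) :
    (stdGaussian (EE n) {x | ⟪S, x⟫_ℝ ∈ Ioc (s - c) s}).toReal ≤ c / 2 := by
  have h1 := map_inner S
  rw [hS] at h1
  norm_num at h1
  have hmeas : Measurable fun x : EE n => ⟪S, x⟫_ℝ := by fun_prop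
  have h2 : stdGaussian (EE n) {x | ⟪S, x⟫_ℝ ∈ Ioc (s - c) s} = gaussianReal 0 1 (Ioc (s - c) s) := by
    rw [← h1, Measure.map_apply hmeas measurableSet_Ioc]
    rfl
  rw [h2, Pool.Agent.H460BZ.meas_Ioc _ _ (by linarith)]
  have h3 : (∫ x in (s - c)..s, Pool.Agent.H460BZ.φ x) ≤ ∫ x in (s - c)..s, (1 / 2 : ℝ) := by
    apply intervalIntegral.integral_mono_on (by linarith)
    · exact Pool.Agent.H460BZ.φ_cont.intervalIntegrable _ _
    · exact intervalIntegrable_const
    · intro x _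
      exact pdf_le x
  rw [intervalIntegral.integral_const] at h3
  have h4 : 0 ≤ ∫ x in (s - c)..s, Pool.Agent.H460BZ.φ x :=
    intervalIntegral.integral_nonneg (by linarith) fun x _ => Pool.Agent.H460BZ.φ_nonneg x
  rw [ENNReal.toReal_ofReal h4]
  simp only [smul_eq_mul] at h3
  linarith

/-- The ball around the Gaussian barycenter. -/
theorem ball_sub {n : ℕ} (A : Set (EE n)) (hA : IsClosed A) (hc : Convex ℝ A) (m : ℝ)
    (hm : m = (stdGaussian (EE n) A).toReal) (hm0 : 0 < m) (b : EE n)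
    (hb : ∫ x in A, x ∂(stdGaussian (EE n)) = m • b) (w : ℝ) (hw : w < m / 2) :
    Metric.closedBall b w ⊆ A := by
  intro z hz
  by_contra hzA
  obtain ⟨f, s, hf1, hf2⟩ := geometric_hahn_banach_closed_point hc hA hzA
  have hne : A.Nonempty := by
    by_contra h
    rw [Set.not_nonempty_iff_eq_empty] at h
    rw [hm, h] at hm0
    simp at hm0
  set v : EE n := (InnerProductSpace.toDual ℝ (EE n)).symm f with hv
  have hfv : ∀ x, f x = ⟪v, x⟫_ℝ := by
    intro x
    rw [hv, InnerProductSpace.toDual_symm_apply]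
  have hv0 : v ≠ 0 := by
    intro h0
    obtain ⟨a, ha⟩ := hne
    have h1 := hf1 a ha
    rw [hfv, h0, inner_zero_left] at h1
    rw [hfv, h0, inner_zero_left] at hf2
    linarith
  have hvn : 0 < ‖v‖ := norm_pos_iff.mpr hv0
  set θ : EE n := ‖v‖⁻¹ • v with hθ
  have hθ1 : ‖θ‖ = 1 := by
    rw [hθ, norm_smul, norm_inv, norm_norm, inv_mul_cancel₀ hvn.ne']
  have hin : ∀ a ∈ A, ⟪θ, a⟫_ℝ < ⟪θ, z⟫_ℝ := by
    intro a ha
    rw [hθ, real_inner_smul_left, real_inner_smul_left]
    apply mul_lt_mul_of_pos_left _ (inv_pos.mpr hvn)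
    rw [← hfv, ← hfv]
    exact (hf1 a ha).trans hf2
  set t := ⟪θ, b⟫_ℝ with ht
  have hzt : ⟪θ, z⟫_ℝ ≤ t + w := by
    have h1 : ⟪θ, z - b⟫_ℝ ≤ ‖θ‖ * ‖z - b‖ := real_inner_le_norm _ _
    rw [hθ1, one_mul, inner_sub_right] at h1
    have h2 : ‖z - b‖ ≤ w := by
      rw [← dist_eq_norm]; exact hz
    linarith
  have hid : Integrable (fun x : EE n => x) (stdGaussian (EE n)) := IsGaussian.integrable_id
  have hidA : Integrable (fun x : EE n => x) ((stdGaussian (EE n)).restrict A) := hid.restrict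
  have hinA : Integrable (fun x : EE n => ⟪θ, x⟫_ℝ) ((stdGaussian (EE n)).restrict A) :=
    hidA.const_inner θ
  have hint1 : ∫ x in A, ⟪θ, x⟫_ℝ ∂(stdGaussian (EE n)) = m * t := by
    rw [integral_inner hidA θ, hb, real_inner_smul_right]
  have hmr : ((stdGaussian (EE n)).restrict A).real univ = m := by
    rw [measureReal_restrict_apply MeasurableSet.univ, univ_inter, hm]
    rfl
  set Y : EE n → ℝ := fun x => t + w - ⟪θ, x⟫_ℝ with hY
  have hYi : Integrable Y ((stdGaussian (EE n)).restrict A) :=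
    (integrable_const _).sub hinA
  have hintY : ∫ x in A, Y x ∂(stdGaussian (EE n)) = m * w := by
    rw [hY, integral_sub (integrable_const _) hinA, integral_const, hint1, hmr, smul_eq_mul]
    ring
  have hY0 : 0 ≤ᵐ[(stdGaussian (EE n)).restrict A] Y := by
    rw [Filter.EventuallyLE, ae_restrict_iff' hA.measurableSet]
    filter_upwards with x hx
    have := hin x hx
    simp only [hY, Pi.zero_apply]
    linarith
  have hmk := mul_meas_ge_le_integral_of_nonneg hY0 hYi m
  rw [hintY] at hmk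
  have hmk' : ((stdGaussian (EE n)).restrict A).real {x | m ≤ Y x} ≤ w :=
    le_of_mul_le_mul_left hmk hm0
  have hms : MeasurableSet {x : EE n | m ≤ Y x} := by
    apply measurableSet_le measurable_const
    rw [hY]; fun_prop
  have hsplit : ((stdGaussian (EE n)).restrict A).real {x | m ≤ Y x} +
      ((stdGaussian (EE n)).restrict A).real {x | m ≤ Y x}ᶜ = m :=
    (measureReal_add_measureReal_compl hms).trans hmr
  have hcomp : ((stdGaussian (EE n)).restrict A).real {x | m ≤ Y x}ᶜ ≤ m / 2 := by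
    refine le_trans ?_ (slab_le θ hθ1 (t + w) m hm0.le)
    rw [measureReal_restrict_apply hms.compl]
    apply measureReal_mono _ (measure_ne_top _ _)
    rintro x ⟨hx1, hx2⟩
    simp only [mem_compl_iff, mem_ofPred_eq, not_le, hY] at hx1
    have := hin x hx2
    exact ⟨by linarith, by linarith⟩
  linarith

/-- The norm of the Gaussian barycenter. -/
theorem norm_bary {n : ℕ} (A : Set (EE n)) (m : ℝ) (hm0 : 0 < m) (b : EE n)
    (hb : ∫ x in A, x ∂(stdGaussian (EE n)) = m • b) : m * ‖b‖ ≤ 1 := by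
  by_cases hb0 : b = 0
  · rw [hb0, norm_zero, mul_zero]; exact zero_le_one
  have hbn : 0 < ‖b‖ := norm_pos_iff.mpr hb0
  set θ : EE n := ‖b‖⁻¹ • b with hθ
  have hθ1 : ‖θ‖ = 1 := by
    rw [hθ, norm_smul, norm_inv, norm_norm, inv_mul_cancel₀ hbn.ne']
  have hid : Integrable (fun x : EE n => x) (stdGaussian (EE n)) := IsGaussian.integrable_id
  have hidA : Integrable (fun x : EE n => x) ((stdGaussian (EE n)).restrict A) := hid.restrict
  have h1 : m * ‖b‖ = ∫ x in A, ⟪θ, x⟫_ℝ ∂(stdGaussian (EE n)) := by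
    rw [integral_inner hidA θ, hb, real_inner_smul_right, hθ, real_inner_smul_left,
      real_inner_self_eq_norm_sq]
    field_simp
  have hmap := map_inner θ
  rw [hθ1] at hmap
  norm_num at hmap
  have hmeas : Measurable fun x : EE n => ⟪θ, x⟫_ℝ := by fun_prop
  have hsq : Integrable (fun y : ℝ => y ^ 2) (gaussianReal 0 1) := by
    have := (memLp_id_gaussianReal (μ := 0) (v := 1) 2).integrable_sq
    simpa using this
  have hsq' : Integrable (fun x : EE n => ⟪θ, x⟫_ℝ ^ 2) (stdGaussian (EE n)) := by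
    rw [← hmap] at hsq
    rwa [integrable_map_measure (by fun_prop) hmeas.aemeasurable] at hsq
  have hv : ∫ x, ⟪θ, x⟫_ℝ ^ 2 ∂(stdGaussian (EE n)) = 1 := by
    have h2 : ∫ y, y ^ 2 ∂(gaussianReal 0 1) = 1 := by
      have h3 := variance_id_gaussianReal (μ := 0) (v := 1)
      rw [variance_eq_sub (memLp_id_gaussianReal 2)] at h3
      simpa using h3
    rw [← hmap, integral_map hmeas.aemeasurable (by fun_prop)] at h2
    exact h2
  have h4 : ∫ x in A, ⟪θ, x⟫_ℝ ∂(stdGaussian (EE n)) ≤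
      ∫ x in A, (1 + ⟪θ, x⟫_ℝ ^ 2) / 2 ∂(stdGaussian (EE n)) := by
    apply integral_mono (hidA.const_inner θ)
    · exact (((integrable_const 1).add hsq').div_const 2).restrict
    · intro x
      simp only
      nlinarith [sq_nonneg (⟪θ, x⟫_ℝ - 1)]
  have h5 : ∫ x in A, (1 + ⟪θ, x⟫_ℝ ^ 2) / 2 ∂(stdGaussian (EE n)) ≤
      ∫ x, (1 + ⟪θ, x⟫_ℝ ^ 2) / 2 ∂(stdGaussian (EE n)) := by
    apply setIntegral_le_integral (((integrable_const 1).add hsq').div_const 2)
    filter_upwards with x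
    have := sq_nonneg (⟪θ, x⟫_ℝ)
    show (0:ℝ) ≤ (1 + ⟪θ, x⟫_ℝ ^ 2) / 2
    linarith
  have h6 : ∫ x, (1 + ⟪θ, x⟫_ℝ ^ 2) / 2 ∂(stdGaussian (EE n)) = 1 := by
    rw [integral_div, integral_add (integrable_const 1) hsq', hv]
    simp
  linarith

end Pool.Agent.R755.Bal
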