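import Pool.Agent.R755.Bal.Step
import Pool.Agent.R755.Bal.Bary

/-!
# Balancing constants and Gaussian barycenters: the core estimate
-/

set_option autoImplicit false

namespace Pool.Agent.R755.Bal

open MeasureTheory ProbabilityTheory Set
open scoped ENNReal Pointwise InnerProductSpace

theorem core {n m : ℕ} (V : Set (EE n)) (hV : IsClosed V) (hc : Convex ℝ V) (p : ℝ) (hp : 0 < p)
    (hpV : p ≤ (stdGaussian (EE n) V).toReal) (b : EE n)
    (hb : ∫ x in V, x ∂(stdGaussian (EE n)) = (stdGaussian (EE n) V).toReal • b)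
    (β : ℝ) (hβ : ‖b‖ ≤ β) (u : Fin m → EE n) (hu : ∀ i, ‖u i‖ ≤ 1) :
    ∃ ε : Fin m → ℝ, (∀ i, ε i = 1 ∨ ε i = -1) ∧
      (100 * (1 + 4 * (2 * √(Real.log (100 / p)) + β) / p))⁻¹ • (∑ i, ε i • u i) + b ∈ V := by
  have hm0 : 0 < (stdGaussian (EE n) V).toReal := hp.trans_le hpV
  have hm1 : (stdGaussian (EE n) V).toReal ≤ 1 := by
    have := ENNReal.toReal_mono ENNReal.one_ne_top (prob_le_one (μ := stdGaussian (EE n)) (s := V))
    simpa using this
  have hp1 : p ≤ 1 := hpV.trans hm1
  have hL : 0 < Real.log (100 / p) := by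
    apply Real.log_pos
    rw [lt_div_iff₀ hp]
    linarith
  set r : ℝ := 2 * √(Real.log (100 / p)) with hr
  have hr0 : 0 < r := by positivity
  have hrexp : Real.exp (-(r ^ 2 / 4)) ≤ p / 100 := by
    have h1 : r ^ 2 / 4 = Real.log (100 / p) := by
      rw [hr, mul_pow, Real.sq_sqrt hL.le]; ring
    rw [h1, ← Real.log_inv, Real.exp_log (by positivity), inv_div]
  have hconc := conc V hV p hp hpV r hr0.le hrexp
  have hball := ball_sub V hV hc _ rfl hm0 b hb (p / 4) (by linarith)
  have hβ0 : 0 ≤ β := (norm_nonneg b).trans hβ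
  set T : ℝ := 1 + 4 * (r + β) / p with hT
  have hT1 : 0 < 4 * (r + β) / p := by positivity
  have hT0 : 0 < T := by rw [hT]; linarith
  have hne : V.Nonempty := by
    by_contra h
    rw [Set.not_nonempty_iff_eq_empty] at h
    rw [h] at hm0
    simp at hm0
  set K : Set (EE n) := {x | T⁻¹ • x + b ∈ V} with hK
  have hcontK : Continuous fun x : EE n => T⁻¹ • x + b := by fun_prop
  have hKc : IsClosed K := hV.preimage hcontK
  have hKconv : Convex ℝ K := by
    intro x hx y hy s t hs ht hst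
    have h1 := hc hx hy hs ht hst
    show T⁻¹ • (s • x + t • y) + b ∈ V
    have h2 : T⁻¹ • (s • x + t • y) + b = s • (T⁻¹ • x + b) + t • (T⁻¹ • y + b) := by
      have h3 : b = (s + t) • b := by rw [hst, one_smul]
      conv_lhs => rw [h3]
      rw [add_smul]
      simp only [smul_add, smul_smul]
      rw [mul_comm s T⁻¹, mul_comm t T⁻¹]
      abel
    rw [h2]
    exact h1
  have hsub : Metric.cthickening r V ⊆ K := by
    intro x hx
    have hx' : Metric.infEDist x V ≤ ENNReal.ofReal r := hx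
    obtain ⟨a, haV, ha⟩ := hV.exists_infDist_eq_dist hne x
    have hd : dist x a ≤ r := by
      rw [← ha, Metric.infDist]
      exact ENNReal.toReal_le_of_le_ofReal hr0.le hx'
    have hq : b + (4 * (r + β) / p)⁻¹ • ((x - a) + b) ∈ V := by
      apply hball
      rw [mem_closedBall_iff_norm, add_sub_cancel_left, norm_smul, norm_inv, Real.norm_eq_abs,
        abs_of_pos hT1]
      have h1 : ‖(x - a) + b‖ ≤ r + β := by
        refine (norm_add_le _ _).trans ?_
        rw [dist_eq_norm] at hd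
        exact add_le_add hd hβ
      rw [inv_mul_le_iff₀ hT1]
      calc ‖(x - a) + b‖ ≤ r + β := h1
        _ = 4 * (r + β) / p * (p / 4) := by field_simp
    have h2 := hc haV hq (a := T⁻¹) (b := 1 - T⁻¹) (by positivity)
      (by
        rw [sub_nonneg]
        apply inv_le_one_of_one_le₀
        rw [hT]; linarith) (by ring)
    show T⁻¹ • x + b ∈ V
    convert h2 using 1
    have h3 : (1 - T⁻¹) * (4 * (r + β) / p)⁻¹ = T⁻¹ := by
      have h4 : 1 - T⁻¹ = (4 * (r + β) / p) * T⁻¹ := by
        rw [hT]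
        field_simp
        ring
      rw [h4, mul_comm, ← mul_assoc, inv_mul_cancel₀ hT1.ne', one_mul]
    rw [smul_add (1 - T⁻¹), smul_smul, h3, smul_add, smul_sub, sub_smul, one_smul]
    abel
  have hKm : 99 / 100 ≤ (stdGaussian (EE n) K).toReal :=
    hconc.trans (ENNReal.toReal_mono (measure_ne_top _ _) (measure_mono hsub))
  obtain ⟨ε, h1, h2⟩ := bal K hKc hKconv hKm (fun i => (100 : ℝ)⁻¹ • u i) (by
    intro i
    rw [norm_smul]
    norm_num
    have := hu i
    linarith)
  refine ⟨ε, h1, ?_⟩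
  have h3 : T⁻¹ • (∑ i, ε i • (100 : ℝ)⁻¹ • u i) + b ∈ V := h2
  have h4 : T⁻¹ • (∑ i, ε i • (100 : ℝ)⁻¹ • u i) = (100 * T)⁻¹ • (∑ i, ε i • u i) := by
    rw [Finset.smul_sum, Finset.smul_sum]
    apply Finset.sum_congr rfl
    intro i _
    rw [smul_smul, smul_smul, smul_smul, mul_inv]
    congr 1
    ring
  rw [h4] at h3
  exact h3

end Pool.Agent.R755.Bal
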