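import Pool.Agent.R755.Bal.Conc

set_option autoImplicit false

namespace Pool.Agent.R755.Bal

open MeasureTheory ProbabilityTheory Set
open scoped ENNReal Pointwise InnerProductSpace

theorem gauss_pos {n : ℕ} (V : Set (EE n)) (hV : (interior V).Nonempty) :
    0 < (stdGaussian (EE n)).real V := by
  have h1 : (gaussianReal 0 1).IsOpenPosMeasure :=
    (gaussianReal_absolutelyContinuous' 0 one_ne_zero).isOpenPosMeasure
  have h2 : (Measure.pi fun _ : Fin n => gaussianReal 0 1).IsOpenPosMeasure := inferInstance
  have hms : Continuous (WithLp.toLp 2 : (Fin n → ℝ) → EE n) := by fun_prop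
  have h3 : 0 < (Measure.pi fun _ : Fin n => gaussianReal 0 1) (WithLp.toLp 2 ⁻¹' interior V) := by
    apply IsOpen.measure_pos _ (isOpen_interior.preimage hms)
    obtain ⟨x, hx⟩ := hV
    exact ⟨WithLp.ofLp x, by simpa using hx⟩
  have h4 : 0 < stdGaussian (EE n) (interior V) := by
    rw [← map_pi_eq_stdGaussian, Measure.map_apply hms.measurable isOpen_interior.measurableSet]
    exact h3
  have h5 : 0 < stdGaussian (EE n) V := h4.trans_le (measure_mono interior_subset)
  exact ENNReal.toReal_pos h5.ne' (measure_ne_top _ _)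

end Pool.Agent.R755.Bal
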