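import Pool.Agent.H460BZ.Lemma

/-!
# Balancing vectors of norm at most `1/100` in a closed convex set of Gaussian measure `≥ 99/100`
-/

set_option autoImplicit false

namespace Pool.Agent.R755.Bal

open MeasureTheory ProbabilityTheory Set
open scoped ENNReal Pointwise
open Pool.Agent.H460BZ

/-- equality case -/
theorem bal_eq {n : ℕ} : ∀ (m : ℕ) (K : Set (EE n)), IsClosed K → Convex ℝ K →
    99 / 100 ≤ (stdGaussian (EE n) K).toReal → ∀ u : Fin m → EE n, (∀ i, ‖u i‖ = 1 / 100) →
    ∃ ε : Fin m → ℝ, (∀ i, ε i = 1 ∨ ε i = -1) ∧ ∑ i, ε i • u i ∈ K := by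
  intro m
  induction m with
  | zero =>
    intro K hK hc hm u hu
    refine ⟨fun _ => 1, fun i => Or.inl rfl, ?_⟩
    simp only [Finset.univ_eq_empty, Finset.sum_empty]
    -- `K ∩ -K` is nonempty
    by_contra h0
    have hdis : Disjoint K (-K) := by
      rw [Set.disjoint_left]
      intro x hx hx'
      apply h0
      have := hc hx (Set.mem_neg.mp hx') (a := 1/2) (b := 1/2) (by norm_num) (by norm_num) (by norm_num)
      simpa using this
    have hneg : stdGaussian (EE n) (-K) = stdGaussian (EE n) K := by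
      have h1 : (stdGaussian (EE n)).map (LinearIsometryEquiv.neg ℝ : EE n ≃ₗᵢ[ℝ] EE n) = stdGaussian (EE n) :=
        stdGaussian_map _
      conv_rhs => rw [← h1]
      rw [Measure.map_apply (LinearIsometryEquiv.continuous _).measurable hK.measurableSet]
      congr 1
    have h2 : stdGaussian (EE n) (K ∪ -K) = stdGaussian (EE n) K + stdGaussian (EE n) (-K) :=
      measure_union hdis (hK.neg.measurableSet)
    have h3 : stdGaussian (EE n) (K ∪ -K) ≤ 1 := prob_le_one
    rw [h2, hneg] at h3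
    have h4 := ENNReal.toReal_mono ENNReal.one_ne_top h3
    rw [ENNReal.toReal_add (measure_ne_top _ _) (measure_ne_top _ _), ENNReal.toReal_one] at h4
    linarith
  | succ m ih =>
    intro K hK hc hm u hu
    have hkey := key_lemma n K hK hc (u 0) (hu 0) hm
    have hm' : 99 / 100 ≤ (stdGaussian (EE n) (star K (u 0))).toReal :=
      hm.trans (ENNReal.toReal_mono (measure_ne_top _ _) hkey)
    obtain ⟨ε, h1, h2⟩ := ih (star K (u 0)) (star_closed hK _) (star_convex hc _) hm'
      (fun i => u i.succ) (fun i => hu _)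
    rcases star_step hc (u 0) h2 with h | h
    · refine ⟨Fin.cons 1 ε, ?_, ?_⟩
      · intro i
        refine Fin.cases ?_ ?_ i
        · left; simp
        · intro j; simpa using h1 j
      · rw [Fin.sum_univ_succ]
        simp only [Fin.cons_zero, Fin.cons_succ, one_smul]
        rwa [add_comm]
    · refine ⟨Fin.cons (-1) ε, ?_, ?_⟩
      · intro i
        refine Fin.cases ?_ ?_ i
        · right; simp
        · intro j; simpa using h1 j
      · rw [Fin.sum_univ_succ]
        simp only [Fin.cons_zero, Fin.cons_succ, neg_smul, one_smul]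
        rwa [neg_add_eq_sub]

/-- forget the last coordinate -/
noncomputable def fgt (n : ℕ) : EE (n + 1) →ₗ[ℝ] EE n where
  toFun x := WithLp.toLp 2 (fun i => x i.castSucc)
  map_add' x y := by ext i; simp
  map_smul' c x := by ext i; simp

/-- append a last coordinate -/
noncomputable def app (n : ℕ) (x : EE n) (t : ℝ) : EE (n + 1) :=
  WithLp.toLp 2 (Fin.snoc (fun i => x i) t)

theorem fgt_app (n : ℕ) (x : EE n) (t : ℝ) : fgt n (app n x t) = x := by
  ext i
  simp [fgt, app]

theorem norm_app (n : ℕ) (x : EE n) (t : ℝ) : ‖app n x t‖ ^ 2 = ‖x‖ ^ 2 + t ^ 2 := by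
  rw [EuclideanSpace.norm_sq_eq, EuclideanSpace.norm_sq_eq, Fin.sum_univ_castSucc]
  simp [app]

theorem map_fgt (n : ℕ) : (stdGaussian (EE (n + 1))).map (fgt n) = stdGaussian (EE n) := by
  have hc : Continuous (fgt n) := LinearMap.continuous_of_finiteDimensional _
  have hP : IsProbabilityMeasure ((stdGaussian (EE (n + 1))).map (fgt n)) :=
    Measure.isProbabilityMeasure_map hc.measurable.aemeasurable
  apply Measure.ext_of_charFun
  ext t
  rw [charFun_stdGaussian, charFun_apply, integral_map hc.measurable.aemeasurable (by fun_prop)]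
  have h1 : ∀ x : EE (n + 1), inner ℝ (fgt n x) t = inner ℝ x (app n t 0) := by
    intro x
    simp only [PiLp.inner_apply]
    rw [Fin.sum_univ_castSucc]
    simp [fgt, app]
  simp_rw [h1]
  have h2 := charFun_stdGaussian (E := EE (n + 1)) (app n t 0)
  rw [charFun_apply] at h2
  rw [h2]
  have h3 := norm_app n t 0
  norm_cast
  rw [h3]
  simp

/-- **Balancing lemma.** -/
theorem bal {n m : ℕ} (K : Set (EE n)) (hK : IsClosed K) (hc : Convex ℝ K)
    (hm : 99 / 100 ≤ (stdGaussian (EE n) K).toReal) (u : Fin m → EE n) (hu : ∀ i, ‖u i‖ ≤ 1 / 100) :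
    ∃ ε : Fin m → ℝ, (∀ i, ε i = 1 ∨ ε i = -1) ∧ ∑ i, ε i • u i ∈ K := by
  have hcf : Continuous (fgt n) := LinearMap.continuous_of_finiteDimensional _
  have hK' : IsClosed ((fgt n) ⁻¹' K) := hK.preimage hcf
  have hc' : Convex ℝ ((fgt n) ⁻¹' K) := hc.linear_preimage (fgt n)
  have hm' : 99 / 100 ≤ (stdGaussian (EE (n + 1)) ((fgt n) ⁻¹' K)).toReal := by
    rw [← Measure.map_apply hcf.measurable hK.measurableSet, map_fgt]
    exact hm
  obtain ⟨ε, h1, h2⟩ := bal_eq m _ hK' hc' hm'
    (fun i => app n (u i) (Real.sqrt ((1/100) ^ 2 - ‖u i‖ ^ 2))) (by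
      intro i
      have h3 : 0 ≤ ((1:ℝ)/100) ^ 2 - ‖u i‖ ^ 2 := by
        have := hu i
        have h0 := norm_nonneg (u i)
        nlinarith
      have h4 := norm_app n (u i) (Real.sqrt ((1/100) ^ 2 - ‖u i‖ ^ 2))
      rw [Real.sq_sqrt h3] at h4
      have h5 : ‖app n (u i) (Real.sqrt ((1/100) ^ 2 - ‖u i‖ ^ 2))‖ ^ 2 = (1/100) ^ 2 := by
        rw [h4]; ring
      exact (pow_left_inj₀ (norm_nonneg _) (by norm_num) (by norm_num)).mp h5)
  refine ⟨ε, h1, ?_⟩
  have h3 : fgt n (∑ i, ε i • app n (u i) (Real.sqrt ((1/100) ^ 2 - ‖u i‖ ^ 2))) = ∑ i, ε i • u i := by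
    rw [map_sum]
    apply Finset.sum_congr rfl
    intro i _
    rw [map_smul, fgt_app]
  rw [← h3]
  exact h2

end Pool.Agent.R755.Bal
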